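import Pool.Agent.Helper56_MG.Stmts2
import Pool.Agent.Helper56_MG.Base2

/-!
# Module JGPL: a generic point over a countable hull
-/

set_option autoImplicit false

open Set

namespace Pool.Agent.MG.H42

theorem VB_bt_one : VB (bt : JJ) (Cond.one JJ) := by
  rw [VB_iff]
  exact ⟨fun i hi => absurd hi (Set.notMem_empty i), fun i hi => absurd hi (not_lt.2 (bt_le i))⟩

/-- MODULE JGPL -/
theorem jgpl (hHull : HullStmt.{1} JJ) (hGd : GdStmt JJ) (hHg : HgStmt JJ) (hClaim : ClaimStmt JJ)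
    (hProp : PropStmt JJ) : JGplStmt := by
  classical
  intro W cd hcd ops D hD1 hD2 p W0 hW0
  choose dd hdd1 hdd2 using hD2
  have hP : ∀ ρ : JJ, ρ < te → BRw JJ ρ ∧ Cst JJ ρ := fun ρ _ => ⟨(hProp ρ).1, (hProp ρ).2.1⟩
  -- the rules
  let Out : ℕ → List (Cond JJ ⊕ W) → Set (Cond JJ ⊕ W) := fun n l =>
    {w | (∃ (e : Cond JJ) (h : VB te e), l = [Sum.inl e] ∧ w = Sum.inr (cd ⟨e, h⟩)) ∨
      (∃ e : PP, l = [Sum.inr (cd e)] ∧ w = Sum.inl e.1) ∨
      (∃ l' : List W, l = l'.map Sum.inr ∧ w = Sum.inr (ops n l')) ∨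
      (∃ (d : PP) (l' : List W), l = Sum.inl d.1 :: l'.map Sum.inr ∧
        w = Sum.inl (dd n l' d).1)}
  have hinr : Function.Injective (List.map (Sum.inr : W → Cond JJ ⊕ W)) :=
    List.map_injective_iff.2 Sum.inr_injective
  have hOut1 : ∀ n l, (Out n l).Countable := by
    intro n l
    have h1 : {w | ∃ (e : Cond JJ) (h : VB te e), l = [Sum.inl e] ∧
        w = (Sum.inr (cd ⟨e, h⟩) : Cond JJ ⊕ W)}.Subsingleton := by
      rintro w ⟨e, h, he, rfl⟩ w' ⟨e', h', he', rfl⟩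
      rw [he] at he'
      have : e = e' := by simpa using he'
      subst this
      rfl
    have h2 : {w | ∃ e : PP, l = [Sum.inr (cd e)] ∧
        w = (Sum.inl e.1 : Cond JJ ⊕ W)}.Subsingleton := by
      rintro w ⟨e, he, rfl⟩ w' ⟨e', he', rfl⟩
      rw [he] at he'
      have : cd e = cd e' := by simpa using he'
      rw [hcd this]
    have h3 : {w | ∃ l' : List W, l = l'.map Sum.inr ∧
        w = (Sum.inr (ops n l') : Cond JJ ⊕ W)}.Subsingleton := by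
      rintro w ⟨l', he, rfl⟩ w' ⟨l'', he', rfl⟩
      rw [he] at he'
      rw [hinr he']
    have h4 : {w | ∃ (d : PP) (l' : List W), l = Sum.inl d.1 :: l'.map Sum.inr ∧
        w = (Sum.inl (dd n l' d).1 : Cond JJ ⊕ W)}.Subsingleton := by
      rintro w ⟨d, l', he, rfl⟩ w' ⟨d', l'', he', rfl⟩
      rw [he] at he'
      have h5 := List.cons_eq_cons.1 he'
      have h6 : d = d' := Subtype.ext (Sum.inl_injective h5.1)
      rw [h6, hinr h5.2]
    have h5 : Out n l = {w | ∃ (e : Cond JJ) (h : VB te e), l = [Sum.inl e] ∧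
        w = (Sum.inr (cd ⟨e, h⟩) : Cond JJ ⊕ W)} ∪ ({w | ∃ e : PP, l = [Sum.inr (cd e)] ∧
        w = (Sum.inl e.1 : Cond JJ ⊕ W)} ∪ ({w | ∃ l' : List W, l = l'.map Sum.inr ∧
        w = (Sum.inr (ops n l') : Cond JJ ⊕ W)} ∪ {w | ∃ (d : PP) (l' : List W),
        l = Sum.inl d.1 :: l'.map Sum.inr ∧ w = (Sum.inl (dd n l' d).1 : Cond JJ ⊕ W)})) := rfl
    rw [h5]
    exact h1.countable.union (h2.countable.union (h3.countable.union h4.countable))
  have hOut2 : ∀ n l e, Sum.inl e ∈ Out n l → VB te e := by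
    rintro n l e (⟨e', h, _, h2⟩ | ⟨e', _, h2⟩ | ⟨l', _, h2⟩ | ⟨d, l', _, h2⟩)
    · cases h2
    · rw [Sum.inl_injective h2]
      exact e'.2
    · cases h2
    · rw [Sum.inl_injective h2]
      exact (dd n l' d).2
  -- the hull
  obtain ⟨N, Z, Y, B, hN, hY, hW1, hW2, _, _, hrule⟩ := hHull te hP W
    (insert (Sum.inl p.1) (Sum.inr '' (insert (cd p) W0)))
    (((hW0.insert _).image _).insert _)
    (by
      intro e he
      rcases he with he | ⟨x, _, hx⟩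
      · rw [Sum.inl_injective he]
        exact p.2
      · cases hx)
    Set.univ Set.infinite_univ (fun n l O _ => Out n l ⊆ O)
    (fun n l _ C' _ hC'inf => ⟨Out n l, hOut1 n l, fun e he => hOut2 n l e he, C', subset_rfl,
      hC'inf, subset_rfl⟩)
  have hsub : ∀ n l, (∀ e, Sum.inl e ∈ l → e ∈ N) → (∀ x, Sum.inr x ∈ l → x ∈ Y) →
      (∀ e, Sum.inl e ∈ Out n l → e ∈ N) ∧ (∀ x, Sum.inr x ∈ Out n l → x ∈ Y) := by
    intro n l h1 h2
    obtain ⟨O, h3, h4, _, _, _, _, h5⟩ := hrule n l h1 h2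
    exact ⟨fun e he => h3 e (h5 he), fun x hx => h4 x (h5 hx)⟩
  have hpN : p.1 ∈ N := hW1 _ (Set.mem_insert _ _)
  have ha : ∀ e ∈ N, ∀ h : VB te e, cd ⟨e, h⟩ ∈ Y := by
    intro e he h
    refine (hsub 0 [Sum.inl e] (fun e' he' => ?_) (fun x hx => ?_)).2 _ (.inl ⟨e, h, rfl, rfl⟩)
    · have : e' = e := by simpa using he'
      rw [this]; exact he
    · simp at hx
  have hb : ∀ e : PP, cd e ∈ Y → e.1 ∈ N := by
    intro e he
    refine (hsub 0 [Sum.inr (cd e)] (fun e' he' => ?_) (fun x hx => ?_)).1 _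
      (.inr (.inl ⟨e, rfl, rfl⟩))
    · simp at he'
    · have : x = cd e := by simpa using hx
      rw [this]; exact he
  have hc : ∀ n l, (∀ x ∈ l, x ∈ Y) → ops n l ∈ Y := by
    intro n l hl
    refine (hsub n (l.map Sum.inr) (fun e' he' => ?_) (fun x hx => ?_)).2 _
      (.inr (.inr (.inl ⟨l, rfl, rfl⟩)))
    · simp at he'
    · have : x ∈ l := by simpa using hx
      exact hl x this
  have hd : ∀ n l, (∀ x ∈ l, x ∈ Y) → ∀ d : PP, d.1 ∈ N → (dd n l d).1 ∈ N := by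
    intro n l hl d hd
    refine (hsub n (Sum.inl d.1 :: l.map Sum.inr) (fun e' he' => ?_) (fun x hx => ?_)).1 _
      (.inr (.inr (.inr ⟨d, l, rfl, rfl⟩)))
    · have : e' = d.1 := by simpa using he'
      rw [this]; exact hd
    · have : x ∈ l := by simpa using hx
      exact hl x this
  -- the dense sets
  let Dt : ℕ → List W → Set (Cond JJ) := fun i l => {d | ∃ h : VB te d, (⟨d, h⟩ : PP) ∈ D i l}
  obtain ⟨𝒟, h𝒟1, h𝒟2⟩ := hGd te N Z hN
    {S | ∃ (i : ℕ) (l : List W), (∀ x ∈ l, x ∈ Y) ∧ S = Dt i l}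
    (by
      have h1 : {l : List W | ∀ x ∈ l, x ∈ Y}.Countable := by
        rw [← Set.range_list_map_coe]
        have : Countable Y := hY.to_subtype
        exact Set.countable_range _
      have h2 : {S | ∃ (i : ℕ) (l : List W), (∀ x ∈ l, x ∈ Y) ∧ S = Dt i l}
          ⊆ ⋃ i : ℕ, (fun l => Dt i l) '' {l : List W | ∀ x ∈ l, x ∈ Y} := by
        rintro S ⟨i, l, hl, rfl⟩
        exact Set.mem_iUnion.2 ⟨i, l, hl, rfl⟩
      exact (Set.countable_iUnion fun i => h1.image _).mono h2)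
    (by
      rintro S ⟨i, l, hl, rfl⟩ e he
      exact ⟨(dd i l ⟨e, hN.vb e he⟩).1, hd i l hl ⟨e, hN.vb e he⟩ he,
        hdd2 i l ⟨e, hN.vb e he⟩, (dd i l ⟨e, hN.vb e he⟩).2, hdd1 i l ⟨e, hN.vb e he⟩⟩)
  obtain ⟨_, _, hgen, _⟩ := hHg te N Z 𝒟 hN h𝒟2
  -- the generic point
  obtain ⟨q, hq1, _, hq3⟩ := hClaim te N Z 𝒟 hN h𝒟2 hP bt te
    (lt_of_le_of_ne (bt_le te) (by
      intro h
      have : JJ.s ixb = JJ.t 0 := h
      cases this)) (bt_le te) le_rfl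
    (Cond.one JJ) VB_bt_one (fun _ => p.1) (measC_const _) (fun _ _ _ => rfl)
    (fun y _ => ⟨hpN, by
      rw [Cond.mem_restr]
      exact fun i _ hi => absurd hi (not_lt.2 (bt_le i)), hgen y⟩)
  obtain ⟨g, hg⟩ := Cond.body_nonempty q
  obtain ⟨hg1, hg2⟩ := hq3 g hg
  have hbel : ∀ e : Cond JJ, VB te e → e.restr te = e := fun e he =>
    Cond.Below.restr_eq ((VB_iff te e).1 he).1
  refine ⟨Y, fun x hx => hW2 x (Set.mem_insert_of_mem _ ⟨x, Set.mem_insert_of_mem _ hx, rfl⟩), hY,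
    ha p.1 hpN p.2, hc, g, ?_, ?_⟩
  · rw [hbel p.1 p.2] at hg1
    exact hg1
  · intro i l hl
    obtain ⟨d, hdN, _, ⟨h1, h2⟩, h3⟩ := hg2 (Dt i l) (h𝒟1 ⟨i, l, hl, rfl⟩)
    refine ⟨⟨d, h1⟩, ha d hdN h1, h2, ?_⟩
    rw [hbel d h1] at h3
    exact h3

end Pool.Agent.MG.H42
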