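import Pool.Agent.Helper56_MG.Stmts2
import Pool.Agent.Helper56_MG.Base2

/-!
# Module JXMEN: the first set is Menger
-/

set_option autoImplicit false

open Set

namespace Pool.Agent.MG.H42

open Pool.Agent.FL (Ix)
open Pool.Agent.Men (iv iv2)

/-! ### Measurability -/

/-- the least number with a measurable property -/
theorem measurable_sInf_nat {Ω : Type*} [MeasurableSpace Ω] (p : Ω → ℕ → Prop)
    (hp : ∀ k, MeasurableSet {w | p w k}) : Measurable (fun w => sInf {k | p w k}) := by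
  refine measurable_to_countable' fun m => ?_
  have h : (fun w => sInf {k | p w k}) ⁻¹' {m}
      = ({w | p w m} ∩ ⋂ k ∈ {k : ℕ | k < m}, {w | p w k}ᶜ) ∪
        ({w | m = 0} ∩ ⋂ k, {w | p w k}ᶜ) := by
    ext w
    simp only [Set.mem_preimage, Set.mem_singleton_iff, Set.mem_union, Set.mem_inter_iff,
      Set.mem_iInter, Set.mem_compl_iff, Set.mem_ofPred_eq]
    constructor
    · intro h
      by_cases hne : ∃ k, p w k
      · left
        have h1 : sInf {k | p w k} ∈ {k | p w k} := Nat.sInf_mem hne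
        rw [h] at h1
        refine ⟨h1, fun k hk h2 => ?_⟩
        have h3 : sInf {k | p w k} ≤ k := Nat.sInf_le h2
        omega
      · right
        push Not at hne
        refine ⟨?_, hne⟩
        rw [← h]
        have : {k | p w k} = ∅ := by
          ext k
          simp [hne k]
        rw [this, Nat.sInf_empty]
    · rintro (⟨h1, h2⟩ | ⟨h1, h2⟩)
      · apply le_antisymm
        · exact Nat.sInf_le h1
        · by_contra h3
          push Not at h3
          exact h2 _ h3 (Nat.sInf_mem ⟨m, h1⟩)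
      · have : {k | p w k} = ∅ := by
          ext k
          simp [h2 k]
        rw [this, Nat.sInf_empty, h1]
  rw [h]
  refine ((hp m).inter (MeasurableSet.biInter (Set.to_countable _) fun k _ => (hp k).compl)).union
    (MeasurableSet.inter (MeasurableSet.const _) (MeasurableSet.iInter fun k => (hp k).compl))

theorem measurable_nxt (n : ℕ) : Measurable (fun x : R => nxt x n) := by
  unfold nxt
  refine measurable_sInf_nat (fun (x : R) k => n ≤ k ∧ x k = true) fun k => ?_
  exact (MeasurableSet.const (n ≤ k)).inter (measurableSet_coord_eq k true)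

theorem measurableSet_iv (a : ℕ) : MeasurableSet (iv a) := measurableSet_Ioo

/-- membership in an interval with measurable number -/
theorem measurableSet_mem_iv {Ω : Type*} [MeasurableSpace Ω] {f : Ω → ℝ} {a : Ω → ℕ}
    (hf : Measurable f) (ha : Measurable a) : MeasurableSet {w | f w ∈ iv (a w)} := by
  have h : {w | f w ∈ iv (a w)} = ⋃ m : ℕ, ({w | a w = m} ∩ f ⁻¹' (iv m)) := by
    ext w
    simp only [Set.mem_ofPred_eq, Set.mem_iUnion, Set.mem_inter_iff, Set.mem_preimage]
    constructor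
    · intro h
      exact ⟨a w, rfl, h⟩
    · rintro ⟨m, h1, h2⟩
      rw [h1]
      exact h2
  rw [h]
  exact MeasurableSet.iUnion fun m =>
    (measurableSet_eq_fun ha measurable_const).inter (hf (measurableSet_iv m))

theorem s_lt_te (k : Ix) : JJ.s k < te := JJ.s_lt_t
theorem m_lt_te (k : Ix) : JJ.m k < te := JJ.m_lt_t

theorem body_mono {q p : PP} (h : q ≤ p) {z : PJ} (hz : z ∈ q.1.body) : z ∈ p.1.body := h hz

/-- the number of the first interval which contains the value of `fr` -/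
noncomputable def fstI (fr : PJ → ℝ) (c : PJ → ℕ → ℕ) (z : PJ) (n : ℕ) : ℕ :=
  sInf {k | fr z ∈ iv (c z (Nat.pair n k))}

theorem fstI_meas {fr : PJ → ℝ} {c : PJ → ℕ → ℕ} (hfr : Measurable fr) (hc : Measurable c) :
    Measurable (fstI fr c) := by
  refine measurable_pi_iff.2 fun n => ?_
  exact measurable_sInf_nat (fun z k => fr z ∈ iv (c z (Nat.pair n k))) fun k =>
    measurableSet_mem_iv hfr ((measurable_pi_apply _).comp hc)

theorem fstI_dep {fr : PJ → ℝ} {c : PJ → ℕ → ℕ} {ρ : JJ} (hfr : Dep ρ fr) (hc : Dep ρ c) :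
    Dep ρ (fstI fr c) := by
  intro y y' h
  funext n
  unfold fstI
  rw [hfr y y' h, hc y y' h]

theorem fstI_spec {fr : PJ → ℝ} {c : PJ → ℕ → ℕ} {z : PJ} {n : ℕ}
    (h : ∃ k, fr z ∈ iv (c z (Nat.pair n k))) : fr z ∈ iv (c z (Nat.pair n (fstI fr c z n))) :=
  Nat.sInf_mem h

theorem Ms_not {fr : PJ → ℝ} {c : PJ → ℕ → ℕ} (hfr : Measurable fr) (hc : Measurable c)
    {ρ : JJ} (hfr' : Dep ρ fr) (hc' : Dep ρ c) (hρ : ρ ≤ te) (n : ℕ) :
    Ms {z | ∀ k, fr z ∉ iv (c z (Nat.pair n k))} := by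
  constructor
  · have h : {z | ∀ k, fr z ∉ iv (c z (Nat.pair n k))}
        = ⋂ k, {z | fr z ∈ iv (c z (Nat.pair n k))}ᶜ := by
      ext z
      simp
    rw [h]
    exact MeasurableSet.iInter fun k =>
      (measurableSet_mem_iv hfr ((measurable_pi_apply _).comp hc)).compl
  · intro y y' h
    have h' : ∀ i, i < ρ → y i = y' i := fun i hi => h i (hi.trans_le hρ)
    simp only [Set.mem_ofPred_eq, hfr' y y' h', hc' y y' h']

/-- the easy case: the value of the name is known before the Miller real which bounds -/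
theorem small_case (hJc : JConstStmt) (hThin : ThinmStmt) {fr : PJ → ℝ} {c : PJ → ℕ → ℕ}
    (hfr : Measurable fr) (hc : Measurable c) {γ : Ix} (hfr' : Dep (JJ.m γ) fr)
    (hc' : Dep (JJ.m γ) c) {d : PP}
    (hcov : ∀ q ≤ d, ∀ n, ¬ ∀ z ∈ q.1.body, ∀ k, fr z ∉ iv (c z (Nat.pair n k))) :
    ¬ ∀ z ∈ d.1.body, ∀ n, ∀ k ≤ nxt (z (JJ.m γ)) n, fr z ∉ iv (c z (Nat.pair n k)) := by
  intro hall
  obtain ⟨d', hd', hdis⟩ := hJc.2.1 d (fun n => {z | ∀ k, fr z ∉ iv (c z (Nat.pair n k))})
    (Ms_not hfr hc hfr' hc' (m_lt_te γ).le) (fun n q hq hsub => hcov q hq n fun z hz => hsub hz)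
  obtain ⟨q, hq, n, _, hn⟩ := hThin γ d' (fstI fr c) (fstI_meas hfr hc) (fstI_dep hfr' hc')
    Set.univ Set.infinite_univ
  obtain ⟨z, hz⟩ := Cond.body_nonempty q.1
  have h1 : ∃ k, fr z ∈ iv (c z (Nat.pair n k)) := by
    by_contra hcon
    push Not at hcon
    exact Set.disjoint_left.1 (hdis n) (body_mono hq hz) hcon
  exact hall z (body_mono hd' (body_mono hq hz)) n _ (hn z hz).le (fstI_spec h1)

/-- MODULE JXMEN -/
theorem jxmen (hBnd : BndStmt) (hJc : JConstStmt) (hThin : ThinmStmt) (hEe : EeStmt)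
    (hComp : CompStmt) (hJex : JExStmt) (hNew : JNewStmt) (hCov : CovStmt JJ) : JXmenStmt := by
  classical
  intro e c hc hcov
  obtain ⟨k0, hck0⟩ := hBnd.2.2.2.1 c hc
  set γ : Ix := ixs (ixs k0) with hγ
  have hγ1 : k0 < ixs k0 := lt_ixs k0
  have hγ2 : ixs k0 < γ := lt_ixs _
  have hcγ : Dep (JJ.m γ) c := hck0.mono (le_of_lt (by
    rw [JJ.s_lt_m]
    exact (hγ1.trans hγ2).le))
  refine ⟨fun z n => nxt (z (JJ.m γ)) n, ⟨?_, ?_⟩, ?_⟩
  · refine measurable_pi_iff.2 fun n => ?_
    exact (measurable_nxt n).comp (measurable_pi_apply _)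
  · intro y y' h
    funext n
    show nxt (y (JJ.m γ)) n = nxt (y' (JJ.m γ)) n
    rw [h _ (m_lt_te γ)]
  rintro ⟨k, F⟩ d hd
  obtain ⟨hfm, hfd⟩ := hJex.1 (k, F)
  by_cases hk : k ≤ ixs k0
  · -- small coordinates
    refine small_case hJc hThin hfm hc.1 (hfd.mono ?_) hcγ (fun q hq n => hcov (k, F) q
      (le_trans hq hd) n)
    rw [← not_lt, JJ.m_lt_m, not_lt]
    exact hk.trans hγ2.le
  · push Not at hk
    intro hall
    obtain ⟨EE, hEE1, hEE2⟩ := hEe
    obtain ⟨ff, hff1, hff2⟩ := hComp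
    -- the closed sets
    let E : ℕ → PJ → Set Node := fun N y =>
      EE (c y) ((Encodable.decode (α := ℕ × Finset ℕ) N).getD (0, ∅)).1
        ((Encodable.decode (α := ℕ × Finset ℕ) N).getD (0, ∅)).2
    have hE1 : ∀ N, Measurable (E N) ∧ Dep (JJ.s (ixs k0)) (E N) := by
      intro N
      refine ⟨(hEE1 _ _).comp hc.1, fun y y' h => ?_⟩
      have h1 : c y = c y' := hck0 y y' fun i hi => h i (hi.trans (by
        rw [JJ.s_lt_s]
        exact hγ1))
      simp only [E, h1]
    have hE2 : ∀ (N : ℕ) (q : Cond JJ) (ρ : JJ) (T : PJ → Set Node), VB te q → q ≤ e.1 →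
        ρ ≤ te → Measurable T → Dep ρ T → Fr ρ (fun y => bS (T y)) →
        ¬ ∀ y ∈ q.body, Good false (T y) ∧ bS (T y) ⊆ bS (E N y) := by
      intro N q ρ T hq hqe hρ hT1 hT2 hT3 hTall
      obtain ⟨q', hq', l, hl⟩ := hNew ⟨q, hq⟩ ρ T hρ hT1 hT2 hT3 fun y hy => (hTall y hy).1
      set n := ((Encodable.decode (α := ℕ × Finset ℕ) N).getD (0, ∅)).1 with hn
      set G := ((Encodable.decode (α := ℕ × Finset ℕ) N).getD (0, ∅)).2 with hG
      have h1 : q' ≤ e := fun z hz => hqe (hq' hz)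
      refine hcov (l, G) q' h1 n fun z hz => ?_
      have h2 := (hTall z (hq' hz)).2 (hl z hz)
      exact (hEE2 (c z) n G (z (JJ.s l))).1 h2
    obtain ⟨q', hq', hq'V, K, hK1, hK2, hK3⟩ := hCov (JJ.s k0) (JJ.s (ixs k0)) rfl rfl rfl rfl te
      e.1 e.2 E hE1 hE2 (JJ.s k) rfl (by rw [JJ.s_lt_s]; exact hk) (s_lt_te k) d.1 d.2 hd
    have hcompK : ∀ z ∈ q'.body, ∀ n F, ∀ x ∈ bS (K z), ∃ k, eR (chg x F) ∈
        iv (c z (Nat.pair n k)) := by
      intro z hz n G x hx
      by_contra hcon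
      push Not at hcon
      have h1 := (hEE2 (c z) n G x).2 hcon
      refine Set.disjoint_left.1 ((hK3 z hz).2 (Encodable.encode (n, G))) hx ?_
      simp only [E, Encodable.encodek, Option.getD_some]
      exact h1
    -- thinning
    obtain ⟨q'', hq'', n, hnB, hn⟩ := hThin γ ⟨q', hq'V⟩ (fun z n => ff (K z) (c z) n)
      (hff1.comp (hK1.prodMk hc.1))
      (fun y y' h => by
        have h1 : K y = K y' := hK2 y y' fun i hi => h i (hi.trans (by
          show JJ.m (ixs k0) < JJ.m γ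
          rw [JJ.m_lt_m]
          exact hγ2))
        have h2 : c y = c y' := hcγ y y' h
        simp only [h1, h2])
      {n | ∀ i ∈ F, i < n} (by
        refine Set.infinite_of_forall_exists_gt fun a => ⟨max a (F.sup id) + 1, fun i hi => ?_, ?_⟩
        · have : i ≤ F.sup id := Finset.le_sup (f := id) hi
          omega
        · omega)
    obtain ⟨z, hz⟩ := Cond.body_nonempty q''.1
    have hz' : z ∈ q'.body := hq'' hz
    obtain ⟨k', hk'1, hk'2⟩ := hff2 (K z) (c z) (hcompK z hz') n (z (JJ.s k)) (hK3 z hz').1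
      (chg (z (JJ.s k)) F) (fun i hi _ => by
        have : i ∉ F := fun h => by
          have := hnB i h
          omega
        simp [chg, this])
    exact hall z (hq' hz') n k' (hk'1.trans (hn z hz).le) hk'2

end Pool.Agent.MG.H42
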